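import Pool.Agent.W5h77.MR.Main

set_option autoImplicit false

/-!
# Schemes over quotients of the ring of integers
-/

open CategoryTheory AlgebraicGeometry MvPolynomial Pool.Agent.Y116.UV Pool.Agent.Q282.UK
  Pool.Agent.Q282.UZ Pool.Agent.W5h93.FG

namespace Pool.Agent.W5h77.MR

/-- A scheme over `ℤ / N` as a scheme over `ℤ`. -/
noncomputable def toZ (N : ℕ) (X : Sch (ZMod N)) : Sch ℤ :=
  Over.mk (X.hom ≫ Spec.map (CommRingCat.ofHom (Int.castRingHom (ZMod N))))

variable {N : ℕ}

/-- morphisms -/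
noncomputable def toZMap {X Y : Sch (ZMod N)} (f : X ⟶ Y) : toZ N X ⟶ toZ N Y :=
  Over.homMk f.left (by
    change f.left ≫ Y.hom ≫ _ = X.hom ≫ _
    rw [← Category.assoc, Over.w f])

lemma toZ_iso {X Y : Sch (ZMod N)} (e : X ≅ Y) : Nonempty (toZ N X ≅ toZ N Y) := by
  refine ⟨⟨toZMap e.hom, toZMap e.inv, ?_, ?_⟩⟩
  · apply Over.OverMorphism.ext
    change e.hom.left ≫ e.inv.left = _
    rw [← Over.comp_left, e.hom_inv_id]
    rfl
  · apply Over.OverMorphism.ext
    change e.inv.left ≫ e.hom.left = _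
    rw [← Over.comp_left, e.inv_hom_id]
    rfl

lemma toZ_ft {X : Sch (ZMod N)} (h : FT True X) : FT True (toZ N X) := by
  have hs : Function.Surjective (Int.castRingHom (ZMod N)) := ZMod.intCast_surjective
  have hc : IsClosedImmersion (Spec.map (CommRingCat.ofHom (Int.castRingHom (ZMod N)))) :=
    IsClosedImmersion.spec_of_surjective _ hs
  have h1 := h.locallyOfFiniteType
  have h2 := h.quasiCompact
  have h3 := h.separated trivial
  refine ⟨?_, ?_, fun _ => ?_⟩
  · change LocallyOfFiniteType (X.hom ≫ Spec.map (CommRingCat.ofHom (Int.castRingHom (ZMod N))))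
    infer_instance
  · change QuasiCompact (X.hom ≫ Spec.map (CommRingCat.ofHom (Int.castRingHom (ZMod N))))
    infer_instance
  · change IsSeparated (X.hom ≫ Spec.map (CommRingCat.ofHom (Int.castRingHom (ZMod N))))
    infer_instance

lemma toZ_triple {Z X U : Sch (ZMod N)} {i : Z ⟶ X} {j : U ⟶ X} (h : IsTriple i j) :
    IsTriple (toZMap i) (toZMap j) where
  closed := h.closed
  opened := h.opened
  compl := h.compl

/-- affine schemes -/
noncomputable def toZ_aff (A : Type) [CommRing A] [Algebra (ZMod N) A] :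
    toZ N (aff (ZMod N) A) ≅ aff ℤ A :=
  Over.isoMk (Iso.refl _) (by
    change 𝟙 _ ≫ Spec.map (CommRingCat.ofHom (algebraMap ℤ A)) =
      Spec.map (CommRingCat.ofHom (algebraMap (ZMod N) A)) ≫
        Spec.map (CommRingCat.ofHom (Int.castRingHom (ZMod N)))
    rw [Category.id_comp, ← Spec.map_comp, ← CommRingCat.ofHom_comp]
    congr 2
    exact RingHom.ext_int _ _)

theorem clo_toZ {P : Sch ℤ → Prop} (hP : Clo True P) : Clo True fun X => P (toZ N X) where
  iso hX e h := by
    obtain ⟨e⟩ := e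
    exact hP.iso (toZ_ft hX) (toZ_iso e) h
  total i j hX ht hZ hU := hP.total (toZMap i) (toZMap j) (toZ_ft hX) (toZ_triple ht) hZ hU
  opened i j hX ht hZ hX' := hP.opened (toZMap i) (toZMap j) (toZ_ft hX) (toZ_triple ht) hZ hX'
  torus A _ _ hA h := by
    have h1 : Algebra.FiniteType ℤ (ZMod N) :=
      Algebra.FiniteType.of_surjective (Algebra.ofId ℤ (ZMod N)) ZMod.intCast_surjective
    have h2 : Algebra.FiniteType ℤ A := Algebra.FiniteType.trans (S := ZMod N) h1 hA
    have h3 := ft_laurent (R := ℤ) A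
    have h4 := ft_laurent (R := ZMod N) A
    have h5 : P (aff ℤ (LaurentPolynomial A)) :=
      hP.iso (toZ_ft (ft_aff True)) ⟨toZ_aff (LaurentPolynomial A)⟩ h
    exact hP.iso (ft_aff True) ⟨(toZ_aff A).symm⟩ (hP.torus A h5)

theorem closed_toZ {P : Sch ℤ → Prop} (hP : ClosedRule True P) :
    ClosedRule True fun X => P (toZ N X) := by
  intro Z X U i j hX ht hX' hU
  exact hP (toZMap i) (toZMap j) (toZ_ft hX) (toZ_triple ht) hX' hU

lemma short_zmod (N : ℕ) : ShortPresents (ZMod N) := by
  have hs : Function.Surjective (Int.cast : ℤ → ZMod N) := ZMod.intCast_surjective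
  have : IsNoetherianRing (ZMod N) :=
    isNoetherianRing_of_surjective ℤ _ (Int.castRingHom (ZMod N)) hs
  exact short_presents hs

end Pool.Agent.W5h77.MR
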