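import Mathlib

set_option autoImplicit false

/-!
# Presentations of algebras by polynomials of degree at most two
-/

open MvPolynomial

namespace Pool.Agent.W5h77.CS

variable {k : Type} [Field k] {B : Type} [CommRing B] [Algebra k B]

/-- `π` is surjective and its kernel is generated by finitely many polynomials of degree `≤ 2` -/
def Pres {σ : Type} (π : MvPolynomial σ k →ₐ[k] B) : Prop :=
  Function.Surjective π ∧ ∃ F : Set (MvPolynomial σ k), F.Finite ∧ RingHom.ker π = Ideal.span F ∧
    ∀ f ∈ F, f.totalDegree ≤ 2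

/-- the images of the polynomials of degree `≤ 1` -/
noncomputable def lin {σ : Type} (π : MvPolynomial σ k →ₐ[k] B) : Submodule k B :=
  (restrictTotalDegree σ k 1).map π.toLinearMap

lemma mem_lin {σ : Type} {π : MvPolynomial σ k →ₐ[k] B} {b : B} :
    b ∈ lin π ↔ ∃ q : MvPolynomial σ k, q.totalDegree ≤ 1 ∧ π q = b := by
  rw [lin, Submodule.mem_map]
  constructor
  · rintro ⟨q, hq, rfl⟩
    exact ⟨q, (mem_restrictTotalDegree σ 1 q).1 hq, rfl⟩
  · rintro ⟨q, hq, rfl⟩
    exact ⟨q, (mem_restrictTotalDegree σ 1 q).2 hq, rfl⟩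

/-- `V` consists of images of polynomials of degree `≤ 1` for a presentation in degree `≤ 2` -/
def Wit (V : Submodule k B) : Prop :=
  ∃ (σ : Type) (_ : Fintype σ) (π : MvPolynomial σ k →ₐ[k] B), Pres π ∧ V ≤ lin π

/-- the substitution `y = r` -/
noncomputable def sbs {σ : Type} (r : MvPolynomial σ k) :
    MvPolynomial (Option σ) k →ₐ[k] MvPolynomial σ k := aeval fun o => o.elim r X

lemma sbs_rename {σ : Type} (r p : MvPolynomial σ k) : sbs r (rename some p) = p := by
  have h : (sbs r).comp (rename some) = AlgHom.id k _ := by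
    apply MvPolynomial.algHom_ext
    intro i
    simp [sbs]
  exact DFunLike.congr_fun h p

lemma ker_sbs {σ : Type} (r : MvPolynomial σ k) :
    RingHom.ker (sbs r) = Ideal.span {X none - rename some r} := by
  apply le_antisymm
  · intro p hp
    have h : (Ideal.Quotient.mkₐ k (Ideal.span {X none - rename some r})) =
        ((Ideal.Quotient.mkₐ k (Ideal.span {X none - rename some r})).comp (rename some)).comp
          (sbs r) := by
      apply MvPolynomial.algHom_ext
      rintro (_ | i)
      · change Ideal.Quotient.mk _ (X none) = Ideal.Quotient.mk _ (rename some (sbs r (X none)))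
        have h1 : sbs r (X none) = r := by simp [sbs]
        rw [h1, Ideal.Quotient.eq]
        exact Ideal.mem_span_singleton_self _
      · change Ideal.Quotient.mk _ (X (some i)) =
          Ideal.Quotient.mk _ (rename some (sbs r (X (some i))))
        have h1 : sbs r (X (some i)) = X i := by simp [sbs]
        rw [h1, rename_X]
    have h2 := DFunLike.congr_fun h p
    change Ideal.Quotient.mk _ p = Ideal.Quotient.mk _ (rename some (sbs r p)) at h2
    have h3 : sbs r p = 0 := hp
    rw [h3, map_zero, map_zero] at h2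
    exact Ideal.Quotient.eq_zero_iff_mem.1 h2
  · rw [Ideal.span_le, Set.singleton_subset_iff]
    change sbs r (X none - rename some r) = 0
    rw [map_sub, sbs_rename]
    simp [sbs]

/-- adding the product of two elements -/
lemma wit_mul {V : Submodule k B} (hV : Wit V) {a b : B} (ha : a ∈ V) (hb : b ∈ V) :
    ∃ V', V ≤ V' ∧ Wit V' ∧ a * b ∈ V' := by
  obtain ⟨σ, hσ, π, ⟨hs, F, hF, hK, hd⟩, hl⟩ := hV
  obtain ⟨p, hp, rfl⟩ := mem_lin.1 (hl ha)
  obtain ⟨q, hq, rfl⟩ := mem_lin.1 (hl hb)
  have hss : Function.Surjective (sbs (p * q)) := fun x => ⟨rename some x, sbs_rename _ _⟩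
  have hr : ∀ x : MvPolynomial σ k, (rename some x).totalDegree ≤ x.totalDegree :=
    fun x => totalDegree_rename_le _ _
  refine ⟨lin (π.comp (sbs (p * q))), ?_, ⟨Option σ, inferInstance, π.comp (sbs (p * q)),
    ⟨hs.comp hss, insert (X none - rename some (p * q)) (rename some '' F),
      (hF.image _).insert _, ?_, ?_⟩, le_refl _⟩, ?_⟩
  · intro v hv
    obtain ⟨x, hx, rfl⟩ := mem_lin.1 (hl hv)
    refine mem_lin.2 ⟨rename some x, (hr x).trans hx, ?_⟩
    change π (sbs _ (rename some x)) = π x
    rw [sbs_rename]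
  · have h1 : RingHom.ker (π.comp (sbs (p * q))) = Ideal.comap (sbs (p * q)) (RingHom.ker π) := by
      ext x
      exact Iff.rfl
    have h2 : Ideal.map (sbs (p * q)) (Ideal.span (rename some '' F)) = RingHom.ker π := by
      rw [Ideal.map_span, hK, Set.image_image]
      simp only [sbs_rename, Set.image_id']
    have h3 := Ideal.comap_map_of_surjective' (sbs (p * q)) hss (Ideal.span (rename some '' F))
    rw [h1, ← h2, h3, ker_sbs, Ideal.span_insert, sup_comm]
  · rintro _ (rfl | ⟨x, hx, rfl⟩)
    · refine (totalDegree_sub _ _).trans (max_le ?_ ?_)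
      · rw [totalDegree_X]
        omega
      · refine (hr _).trans ((totalDegree_mul _ _).trans ?_)
        omega
    · exact (hr x).trans (hd x hx)
  · refine mem_lin.2 ⟨X none, by rw [totalDegree_X], ?_⟩
    change π (sbs _ (X none)) = _
    have h1 : sbs (p * q) (X none) = p * q := by simp [sbs]
    rw [h1, map_mul]

lemma wit_add {n : ℕ} (p : MvPolynomial (Fin n) k) :
    ∀ V : Submodule k (MvPolynomial (Fin n) k), Wit V → (∀ i, X i ∈ V) →
    (∀ c, C c ∈ V) → ∃ V', V ≤ V' ∧ Wit V' ∧ p ∈ V' := by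
  induction p using MvPolynomial.induction_on with
  | C a => exact fun V hV _ hC => ⟨V, le_refl _, hV, hC a⟩
  | add p q hp hq =>
    intro V hV hX hC
    obtain ⟨V1, h1, h2, h3⟩ := hp V hV hX hC
    obtain ⟨V2, h4, h5, h6⟩ := hq V1 h2 (fun i => h1 (hX i)) (fun c => h1 (hC c))
    exact ⟨V2, h1.trans h4, h5, V2.add_mem (h4 h3) h6⟩
  | mul_X p i hp =>
    intro V hV hX hC
    obtain ⟨V1, h1, h2, h3⟩ := hp V hV hX hC
    obtain ⟨V2, h4, h5, h6⟩ := wit_mul h2 h3 (h1 (hX i))
    exact ⟨V2, h1.trans h4, h5, h6⟩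

lemma wit_all {n : ℕ} (G : Finset (MvPolynomial (Fin n) k)) :
    ∃ V : Submodule k (MvPolynomial (Fin n) k), Wit V ∧ (∀ i, X i ∈ V) ∧ (∀ c, C c ∈ V) ∧
      ∀ g ∈ G, g ∈ V := by
  classical
  induction G using Finset.induction_on with
  | empty =>
    refine ⟨lin (AlgHom.id k _), ⟨Fin n, inferInstance, AlgHom.id k _,
      ⟨Function.surjective_id, ∅, Set.finite_empty, ?_, fun _ h => h.elim⟩, le_refl _⟩, fun i =>
      mem_lin.2 ⟨X i, by rw [totalDegree_X], rfl⟩, fun c => mem_lin.2 ⟨C c, by simp, rfl⟩,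
      fun _ h => absurd h (Finset.notMem_empty _)⟩
    rw [Ideal.span_empty, eq_bot_iff]
    intro x hx
    exact hx
  | insert g G hg ih =>
    obtain ⟨V, h1, h2, h3, h4⟩ := ih
    obtain ⟨V', h5, h6, h7⟩ := wit_add g V h1 h2 h3
    refine ⟨V', h6, fun i => h5 (h2 i), fun c => h5 (h3 c), fun x hx => ?_⟩
    rcases Finset.mem_insert.1 hx with rfl | hx
    · exact h7
    · exact h5 (h4 x hx)

/-- Every algebra of finite type is defined by polynomials of degree `≤ 2`. -/
theorem quad (A : Type) [CommRing A] [Algebra k A] [hA : Algebra.FiniteType k A] :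
    ∃ (n m : ℕ) (f : Fin m → MvPolynomial (Fin n) k), (∀ j, (f j).totalDegree ≤ 2) ∧
      Nonempty ((MvPolynomial (Fin n) k ⧸ Ideal.span (Set.range f)) ≃ₐ[k] A) := by
  classical
  obtain ⟨n, φ, hφ⟩ := Algebra.FiniteType.iff_quotient_mvPolynomial''.1 hA
  obtain ⟨G, hG⟩ := (isNoetherianRing_iff_ideal_fg _).1
    (inferInstance : IsNoetherianRing (MvPolynomial (Fin n) k)) (RingHom.ker φ)
  obtain ⟨V, ⟨σ, hσ, π, ⟨hs, F, hF, hK, hd⟩, hl⟩, -, -, hV⟩ := wit_all G
  have hq : ∀ g : G, ∃ q : MvPolynomial σ k, q.totalDegree ≤ 1 ∧ π q = g :=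
    fun g => mem_lin.1 (hl (hV g g.2))
  choose q hq1 hq2 using hq
  let e := Fintype.equivFin σ
  let ψ : MvPolynomial (Fin (Fintype.card σ)) k →ₐ[k] A :=
    (φ.comp π).comp (renameEquiv k e.symm).toAlgHom
  have hψ : Function.Surjective ψ := (hφ.comp hs).comp (renameEquiv k e.symm).surjective
  let S : Set (MvPolynomial σ k) := F ∪ Set.range q
  have hS : (rename e '' S).Finite := (hF.union (Set.finite_range q)).image _
  have hker : RingHom.ker ψ = Ideal.span (rename e '' S) := by
    have h1 : RingHom.ker (φ.comp π) = Ideal.span S := by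
      have h2 : RingHom.ker (φ.comp π) = Ideal.comap π (RingHom.ker φ) := by
        ext x
        exact Iff.rfl
      have h3 : Ideal.map π (Ideal.span (Set.range q)) = RingHom.ker φ := by
        rw [Ideal.map_span, ← hG, ← Set.range_comp]
        congr 1
        ext x
        constructor
        · rintro ⟨g, rfl⟩
          change π (q g) ∈ _
          rw [hq2]
          exact g.2
        · intro hx
          exact ⟨⟨x, hx⟩, hq2 _⟩
      rw [h2, ← h3, Ideal.comap_map_of_surjective' π hs, hK, ← Ideal.span_union, Set.union_comm]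
    have h4 : RingHom.ker ψ = Ideal.comap (renameEquiv k e.symm) (RingHom.ker (φ.comp π)) := by
      ext x
      exact Iff.rfl
    have h5 : Ideal.map (renameEquiv k e.symm) (Ideal.span (rename e '' S)) = Ideal.span S := by
      rw [Ideal.map_span, Set.image_image]
      congr 1
      ext x
      simp [rename_rename]
    rw [h4, h1, ← h5]
    exact Ideal.comap_map_of_bijective _ (renameEquiv k e.symm).bijective
  have hdS : ∀ x ∈ rename e '' S, x.totalDegree ≤ 2 := by
    rintro _ ⟨x, hx, rfl⟩
    refine (totalDegree_rename_le _ _).trans ?_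
    rcases hx with hx | ⟨g, rfl⟩
    · exact hd x hx
    · exact (hq1 g).trans (by omega)
  refine ⟨Fintype.card σ, hS.toFinset.card, fun i => (hS.toFinset.equivFin.symm i :
    MvPolynomial (Fin (Fintype.card σ)) k), fun j => hdS _ ?_, ?_⟩
  · exact hS.mem_toFinset.1 (hS.toFinset.equivFin.symm j).2
  · have h6 : Ideal.span (Set.range fun i => (hS.toFinset.equivFin.symm i :
        MvPolynomial (Fin (Fintype.card σ)) k)) = RingHom.ker ψ := by
      rw [hker]
      congr 1
      ext x
      constructor
      · rintro ⟨i, rfl⟩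
        exact hS.mem_toFinset.1 (hS.toFinset.equivFin.symm i).2
      · intro hx
        exact ⟨hS.toFinset.equivFin ⟨x, hS.mem_toFinset.2 hx⟩, by simp⟩
    exact ⟨(Ideal.quotientEquivAlgOfEq k h6).trans (Ideal.quotientKerAlgEquivOfSurjective hψ)⟩

end Pool.Agent.W5h77.CS
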