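import Pool.Agent.Q193.LT.Pair
import Pool.Agent.Y116.UV.Main
import Pool.Agent.W5h77.MR.Quad

set_option autoImplicit false

/-!
# Cohomology with compact supports: closed subschemes of affine spaces and hypersurfaces
-/

open CategoryTheory AlgebraicGeometry MvPolynomial Pool.Agent.Y116.UV Pool.Agent.Q193.LT

namespace Pool.Agent.W5h77.CS

variable {k : Type} [Field k] {Λ : Type} {K : Λ → Type} [∀ l, Field (K l)]

/-- The affine space of dimension `n`. -/
noncomputable abbrev spc (k : Type) [Field k] (n : ℕ) : Sch k := aff k (MvPolynomial (Fin n) k)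

/-- The closed subscheme of `Spec A` where the elements of `S` vanish. -/
noncomputable abbrev van (k : Type) [Field k] {A : Type} [CommRing A] [Algebra k A] (S : Set A) :
    Sch k := aff k (A ⧸ Ideal.span S)

/-- The polynomial `∑ f_j u_j - 1`. -/
noncomputable abbrev jeq {A : Type} [CommRing A] {m : ℕ} (f : Fin m → A) : MvPolynomial (Fin m) A :=
  ∑ l, C (f l) * X l - 1

/-- The hypersurface `∑ f_j u_j = 1` in the affine space over `Spec A` with the coordinates `u_j`. -/
noncomputable abbrev jou (k : Type) [Field k] {A : Type} [CommRing A] [Algebra k A] {m : ℕ}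
    (f : Fin m → A) : Sch k := van k {jeq f}

/-- The algebra of functions on `van k S` is smooth over `k`. -/
def SmoothVan (k : Type) [Field k] {A : Type} [CommRing A] [Algebra k A] (S : Set A) : Prop :=
  Algebra.Smooth k (A ⧸ Ideal.span S)

/-- `H l i X` is isomorphic to `H l j Y`. -/
abbrev Same (H : ∀ l : Λ, ℤ → Sch k → ModuleCat.{0} (K l)) (l : Λ) (i : ℤ) (X : Sch k) (j : ℤ)
    (Y : Sch k) : Prop := Nonempty (H l i X ≃ₗ[K l] H l j Y)

/-- The properties of the `ℓ`-adic cohomology with compact supports `H l i X = H^i_c(X, ℚ_l)` which are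
used. -/
structure IsCompact (H : ∀ l : Λ, ℤ → Sch k → ModuleCat.{0} (K l)) : Prop where
  finite : ∀ l i (X : Sch k), FT True X → Module.Finite (K l) (H l i X)
  iso : ∀ {X Y : Sch k}, FT True X → Nonempty (X ≅ Y) → ∀ l i, Same H l i X i Y
  les : ∀ {Z X U : Sch k} (i : Z ⟶ X) (j : U ⟶ X), FT True X → IsTriple i j → ∀ l,
    ∃ m : LesMaps (H l) (Equiv.addRight (1 : ℤ)) U X Z, m.IsExact
  space : ∀ (n : ℕ) (l : Λ) (i : ℤ), i ≠ 2 * n → Subsingleton (H l i (spc k n))
  dim : ∀ (n : ℕ) (S : Set (MvPolynomial (Fin n) k)) (l : Λ) (i : ℤ), 2 * (n : ℤ) < i →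
    Subsingleton (H l i (van k S))
  bundle : ∀ (A : Type) [CommRing A] [Algebra k A] [Algebra.FiniteType k A] (m : ℕ)
    (f : Fin (m + 1) → A) (U : Sch k) (j : U ⟶ aff k A), IsOpenImmersion j.left →
    Set.range j.left = {x : PrimeSpectrum A | ∃ l, f l ∉ x.asIdeal} → ∀ (l : Λ) (i : ℤ),
    Same H l i U (i + 2 * m) (jou k f)

/-- The dimensions of the cohomology groups do not depend on `l`. -/
def Indep (H : ∀ l : Λ, ℤ → Sch k → ModuleCat.{0} (K l)) (X : Sch k) : Prop :=
  ∀ (l l' : Λ) (i : ℤ), Module.finrank (K l) (H l i X) = Module.finrank (K l') (H l' i X)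

variable {H : ∀ l : Λ, ℤ → Sch k → ModuleCat.{0} (K l)}

lemma indep_iso (hH : IsCompact H) {X Y : Sch k} (hX : FT True X) (e : Nonempty (X ≅ Y))
    (h : Indep H X) : Indep H Y := by
  intro l l' i
  obtain ⟨e1⟩ := hH.iso hX e l i
  obtain ⟨e2⟩ := hH.iso hX e l' i
  rw [← e1.finrank_eq, ← e2.finrank_eq]
  exact h l l' i

/-- the polynomials `t, f_1, …, f_m` -/
noncomputable def ext {n m : ℕ} (f : Fin m → MvPolynomial (Fin n) k) :
    Fin (m + 1) → MvPolynomial (Fin (n + 1)) k :=
  Fin.cons (X 0) fun j => rename Fin.succ (f j)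

/-- The hypersurface `u_0 t + u_1 f_1(x) + … + u_m f_m(x) = 1`. -/
noncomputable abbrev ysch {n m : ℕ} (f : Fin m → MvPolynomial (Fin n) k) : Sch k := jou k (ext f)

/-- The hypersurface `u_0 t + u_1 f_1(x) + … + u_m f_m(x) = 1` is smooth over `k`. -/
def YSmooth {n m : ℕ} (f : Fin m → MvPolynomial (Fin n) k) : Prop := SmoothVan k {jeq (ext f)}

/-- the closed subscheme `t = f_1 = … = f_m = 0` is `f_1 = … = f_m = 0` -/
lemma ext_equiv {n m : ℕ} (f : Fin m → MvPolynomial (Fin n) k) :
    Nonempty ((MvPolynomial (Fin n) k ⧸ Ideal.span (Set.range f)) ≃ₐ[k]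
      (MvPolynomial (Fin (n + 1)) k ⧸ Ideal.span (Set.range (ext f)))) := by
  set I := Ideal.span (Set.range f)
  set J := Ideal.span (Set.range (ext f))
  let a : MvPolynomial (Fin n) k →ₐ[k] MvPolynomial (Fin (n + 1)) k ⧸ J :=
    (Ideal.Quotient.mkₐ k J).comp (rename Fin.succ)
  let b : MvPolynomial (Fin (n + 1)) k →ₐ[k] MvPolynomial (Fin n) k ⧸ I :=
    aeval (Fin.cons 0 fun j => Ideal.Quotient.mk I (X j))
  have hb : ∀ p, b (rename Fin.succ p) = Ideal.Quotient.mk I p := by
    intro p
    have h1 : b.comp (rename Fin.succ) = Ideal.Quotient.mkₐ k I := by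
      apply MvPolynomial.algHom_ext
      intro i
      simp [b]
    exact DFunLike.congr_fun h1 p
  have hb0 : b (X 0) = 0 := by simp [b]
  have hJ0 : Ideal.Quotient.mk J (X 0) = 0 :=
    Ideal.Quotient.eq_zero_iff_mem.2 (Ideal.subset_span ⟨0, rfl⟩)
  have haI : ∀ p ∈ I, a p = 0 := by
    intro p hp
    have h1 : I ≤ RingHom.ker a := by
      rw [Ideal.span_le]
      rintro _ ⟨j, rfl⟩
      exact Ideal.Quotient.eq_zero_iff_mem.2 (Ideal.subset_span ⟨j.succ, rfl⟩)
    exact h1 hp
  have hbJ : ∀ p ∈ J, b p = 0 := by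
    intro p hp
    have h1 : J ≤ RingHom.ker b := by
      rw [Ideal.span_le]
      rintro _ ⟨j, rfl⟩
      refine Fin.cases ?_ (fun j => ?_) j
      · exact hb0
      · change b (rename Fin.succ (f j)) = 0
        rw [hb]
        exact Ideal.Quotient.eq_zero_iff_mem.2 (Ideal.subset_span ⟨j, rfl⟩)
    exact h1 hp
  refine ⟨AlgEquiv.ofAlgHom (Ideal.Quotient.liftₐ I a haI) (Ideal.Quotient.liftₐ J b hbJ) ?_ ?_⟩
  · apply Ideal.Quotient.algHom_ext
    apply MvPolynomial.algHom_ext
    intro i
    refine Fin.cases ?_ (fun j => ?_) i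
    · change Ideal.Quotient.liftₐ I a haI (b (X 0)) = Ideal.Quotient.mk J (X 0)
      rw [hb0, map_zero, hJ0]
    · change Ideal.Quotient.liftₐ I a haI (b (X j.succ)) = Ideal.Quotient.mk J (X j.succ)
      have h2 : (X j.succ : MvPolynomial (Fin (n + 1)) k) = rename Fin.succ (X j) := by
        rw [rename_X]
      rw [h2, hb]
      rfl
  · apply Ideal.Quotient.algHom_ext
    apply MvPolynomial.algHom_ext
    intro i
    change Ideal.Quotient.liftₐ J b hbJ (a (X i)) = Ideal.Quotient.mk I (X i)
    exact hb (X i)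

/-- The hypersurface `∑ f_j u_j = 1` is smooth over `Spec A`. -/
lemma smooth_jou {A : Type} [CommRing A] {m : ℕ} (f : Fin m → A) : Algebra.Smooth A (Jou f) where
  formallySmooth := by
    apply Algebra.FormallySmooth.of_comp_surjective
    intro B _ _ I hI g
    have hsur : Function.Surjective (Ideal.Quotient.mkₐ A I) := Ideal.Quotient.mkₐ_surjective A I
    choose v hv using fun s => hsur (g (Ideal.Quotient.mk _ (X s)))
    have h1 : (Ideal.Quotient.mkₐ A I).comp (aeval v) =
        g.comp (Ideal.Quotient.mkₐ A (Ideal.span {jeq f})) := by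
      apply MvPolynomial.algHom_ext
      intro s
      change Ideal.Quotient.mkₐ A I (aeval v (X s)) = _
      rw [aeval_X]
      exact hv s
    have h2 : Ideal.Quotient.mkₐ A I (aeval v (jeq f)) = 0 := by
      have h3 := congrArg (fun F : MvPolynomial (Fin m) A →ₐ[A] B ⧸ I => F (jeq f)) h1
      change Ideal.Quotient.mkₐ A I (aeval v (jeq f)) =
        g (Ideal.Quotient.mk _ (jeq f)) at h3
      rw [Ideal.Quotient.eq_zero_iff_mem.mpr (Ideal.mem_span_singleton_self _), map_zero] at h3
      exact h3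
    have h4 : aeval v (jeq f) ∈ I := Ideal.Quotient.eq_zero_iff_mem.mp h2
    set d : B := aeval v (jeq f) with hd
    have h5 : d * d = 0 := by
      have : d * d ∈ I ^ 2 := by
        rw [pow_two]
        exact Ideal.mul_mem_mul h4 h4
      rw [hI] at this
      exact this
    have h8 : ∀ w : Fin m → B, aeval w (jeq f) = ∑ j, algebraMap A B (f j) * w j - 1 := by
      intro w
      simp only [jeq, map_sub, map_sum, map_mul, aeval_X, algHom_C, map_one]
    have h6 : aeval (fun j => (1 - d) * v j) (jeq f) = 0 := by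
      have h9 : ∑ j, algebraMap A B (f j) * ((1 - d) * v j) =
          (1 - d) * ∑ j, algebraMap A B (f j) * v j := by
        rw [Finset.mul_sum]
        exact Finset.sum_congr rfl fun j _ => by ring
      have h10 : ∑ j, algebraMap A B (f j) * v j = 1 + d := by
        rw [hd, h8]
        ring
      rw [h8, h9, h10]
      linear_combination -h5
    refine ⟨Ideal.Quotient.liftₐ _ (aeval fun j => (1 - d) * v j) ?_, ?_⟩
    · intro p hp
      have h9 : Ideal.span {jeq f} ≤
          RingHom.ker (aeval (fun j => (1 - d) * v j) : MvPolynomial (Fin m) A →ₐ[A] B) := by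
        rw [Ideal.span_le, Set.singleton_subset_iff]
        exact h6
      exact h9 hp
    · apply Ideal.Quotient.algHom_ext
      apply MvPolynomial.algHom_ext
      intro s
      change Ideal.Quotient.mkₐ A I (aeval (fun j => (1 - d) * v j) (X s)) =
        g (Ideal.Quotient.mk _ (X s))
      rw [aeval_X, map_mul, map_sub, h2, map_one, sub_zero, one_mul]
      exact hv _
  finitePresentation :=
    Algebra.FinitePresentation.quotient ⟨{jeq f}, by rw [Finset.coe_singleton]⟩

/-- The hypersurfaces `u_0 t + ∑ u_j f_j = 1` are smooth over `k`. -/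
theorem smooth_ext {n m : ℕ} (f : Fin m → MvPolynomial (Fin n) k) : YSmooth f := by
  have h1 : Algebra.Smooth (MvPolynomial (Fin (n + 1)) k) (Jou (ext f)) := smooth_jou _
  have h2 : Algebra.Smooth k (MvPolynomial (Fin (n + 1)) k) :=
    { formallySmooth := inferInstance
      finitePresentation := inferInstance }
  exact Algebra.Smooth.comp k (MvPolynomial (Fin (n + 1)) k) (Jou (ext f))

/-- The complement of the closed subscheme `f = 0` is an open subscheme. -/
lemma ne_triple {A : Type} [CommRing A] [Algebra k A] {m : ℕ} (f : Fin m → A) :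
    IsTriple (affMap (Ideal.Quotient.mkₐ k (Ideal.span (Set.range f))))
      (opnMap (aff k A) (neOpen k f)) := by
  refine ⟨closed_affMap _ (Ideal.Quotient.mkₐ_surjective k _), inferInstance, ?_⟩
  rw [range_affMap _ (Ideal.Quotient.mkₐ_surjective k _), range_opnMap]
  ext x
  change (∀ a, Ideal.Quotient.mk (Ideal.span (Set.range f)) a = 0 → a ∈ x.asIdeal) ↔
    ¬ ∃ l, f l ∉ x.asIdeal
  push Not
  constructor
  · intro h l
    exact h (f l) (Ideal.Quotient.eq_zero_iff_mem.mpr (Ideal.subset_span ⟨l, rfl⟩))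
  · intro h a ha
    rw [Ideal.Quotient.eq_zero_iff_mem] at ha
    refine (Ideal.span_le.mpr ?_ : Ideal.span (Set.range f) ≤ x.asIdeal) ha
    rintro _ ⟨l, rfl⟩
    exact h l

/-- The cohomology of the closed subscheme `f = 0` of the affine space of dimension `n` is the
cohomology of the hypersurface `u_0 t + ∑ u_j f_j = 1` up to a shift. -/
theorem shift (hH : IsCompact H) {n m : ℕ} (f : Fin m → MvPolynomial (Fin n) k) (l : Λ) (i : ℤ)
    (hi : i ≤ 2 * n) : Same H l i (van k (Set.range f)) (i + 1 + 2 * m) (jou k (ext f)) := by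
  obtain ⟨e⟩ := ext_equiv f
  obtain ⟨e1⟩ := hH.iso (ft_aff True) ⟨(affIso e).symm⟩ l i
  obtain ⟨M, hM⟩ := hH.les _ _ (ft_aff True) (ne_triple (k := k) (ext f)) l
  have h1 : Subsingleton (H l i (aff k (MvPolynomial (Fin (n + 1)) k))) :=
    hH.space (n + 1) l i (by push_cast; omega)
  have h2 : Subsingleton (H l (i + 1) (aff k (MvPolynomial (Fin (n + 1)) k))) :=
    hH.space (n + 1) l (i + 1) (by push_cast; omega)
  have hinj : Function.Injective (M.h i).hom := by
    rw [injective_iff_map_eq_zero]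
    intro x hx
    obtain ⟨y, rfl⟩ := (hM.gh i x).1 hx
    rw [Subsingleton.elim y 0, map_zero]
  have hsurj : Function.Surjective (M.h i).hom := by
    intro y
    refine (hM.hf i y).1 ?_
    exact @Subsingleton.elim _ h2 _ _
  obtain ⟨e2⟩ := hH.bundle _ m (ext f) _ (opnMap _ (neOpen k (ext f))) inferInstance
    (range_opnMap _ _) l (i + 1)
  exact ⟨(e1.trans (LinearEquiv.ofBijective (M.h i).hom ⟨hinj, hsurj⟩)).trans e2⟩

/-- The polynomials `f_j` have degree at most two. -/
def Quadr {n m : ℕ} (f : Fin m → MvPolynomial (Fin n) k) : Prop := ∀ j, (f j).totalDegree ≤ 2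

lemma indep_affine (hH : IsCompact H) (h : ∀ (n m : ℕ) (f : Fin m → MvPolynomial (Fin n) k),
    Quadr f → Indep H (jou k (ext f))) (A : Type) [CommRing A] [Algebra k A]
    [hA : Algebra.FiniteType k A] : Indep H (aff k A) := by
  obtain ⟨n, m, f, hf, ⟨e⟩⟩ := quad (k := k) A
  refine indep_iso hH (ft_aff True) ⟨(affIso e).symm⟩ ?_
  intro l l' i
  by_cases hi : i ≤ 2 * n
  · obtain ⟨e1⟩ := shift hH f l i hi
    obtain ⟨e2⟩ := shift hH f l' i hi
    rw [e1.finrank_eq, e2.finrank_eq]
    exact h n m f hf l l' _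
  · have h1 := hH.dim n (Set.range f) l i (by omega)
    have h2 := hH.dim n (Set.range f) l' i (by omega)
    rw [Module.finrank_zero_of_subsingleton, Module.finrank_zero_of_subsingleton]

lemma exists_family {A : Type} [CommRing A] [IsNoetherianRing A] (V : Set (PrimeSpectrum A))
    (hV : IsOpen V) : ∃ (m : ℕ) (f : Fin (m + 1) → A), V = {x | ∃ l, f l ∉ x.asIdeal} := by
  obtain ⟨I, hI⟩ := (PrimeSpectrum.isClosed_iff_zeroLocus_ideal Vᶜ).1 (isClosed_compl_iff.2 hV)
  obtain ⟨G, hG⟩ := (isNoetherianRing_iff_ideal_fg A).1 inferInstance I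
  refine ⟨G.card, Fin.cons 0 fun i => (G.equivFin.symm i : A), ?_⟩
  ext x
  have h1 : x ∈ Vᶜ ↔ I ≤ x.asIdeal := by
    rw [hI]
    exact Iff.rfl
  have h2 : x ∈ V ↔ ¬ I ≤ x.asIdeal := by
    rw [← h1, Set.mem_compl_iff, not_not]
  rw [h2, ← hG, Ideal.span_le, Set.mem_ofPred_eq]
  constructor
  · intro h
    rw [Set.not_subset] at h
    obtain ⟨g, hg, hgx⟩ := h
    refine ⟨(G.equivFin ⟨g, hg⟩).succ, ?_⟩
    simpa using hgx
  · rintro ⟨l, hl⟩ h
    refine Fin.cases (fun hl => ?_) (fun l hl => ?_) l hl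
    · exact hl (by simp)
    · exact hl (h (G.equivFin.symm l).2)

/-- Independence of `l` for the dimensions of the cohomology with compact supports. -/
theorem indep_iff (hH : IsCompact H) : List.TFAE
    [∀ (A : Type) [CommRing A] [Algebra k A] [Algebra.FiniteType k A], Indep H (aff k A),
      ∀ (n : ℕ) (U : Sch k) (j : U ⟶ spc k n), IsOpenImmersion j.left → Indep H U,
      ∀ (n m : ℕ) (f : Fin m → MvPolynomial (Fin n) k), Quadr f → Indep H (jou k (ext f))] := by
  tfae_have 1 → 2 := by
    intro h n U j hj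
    obtain ⟨m, f, hf⟩ := exists_family (Set.range j.left)
      (IsOpenImmersion.isOpen_range j.left)
    intro l l' i
    obtain ⟨e1⟩ := hH.bundle _ m f U j hj hf l i
    obtain ⟨e2⟩ := hH.bundle _ m f U j hj hf l' i
    rw [e1.finrank_eq, e2.finrank_eq]
    have h1 : Algebra.FiniteType k (Jou f) :=
      Algebra.FiniteType.trans (S := MvPolynomial (Fin n) k) inferInstance inferInstance
    exact h (Jou f) l l' _
  tfae_have 2 → 3 := by
    intro h n m f _ l l' i
    obtain ⟨e1⟩ := hH.bundle _ m (ext f) _ (opnMap _ (neOpen k (ext f))) inferInstance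
      (range_opnMap _ _) l (i - 2 * m)
    obtain ⟨e2⟩ := hH.bundle _ m (ext f) _ (opnMap _ (neOpen k (ext f))) inferInstance
      (range_opnMap _ _) l' (i - 2 * m)
    rw [sub_add_cancel] at e1 e2
    rw [← e1.finrank_eq, ← e2.finrank_eq]
    exact h (n + 1) _ (opnMap _ (neOpen k (ext f))) inferInstance l l' _
  tfae_have 3 → 1 := by
    intro h A _ _ _
    exact indep_affine hH h A
  tfae_finish

end Pool.Agent.W5h77.CS
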