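import Pool.Agent.W5h77.MR.Rep

set_option autoImplicit false

/-!
# Configurations of points and systems of bilinear equations
-/

open CategoryTheory AlgebraicGeometry MvPolynomial Pool.Agent.Y116.UV Pool.Agent.Q282.UK
  Pool.Agent.Q282.UZ

namespace Pool.Agent.W5h77.MR

/-- The vectors: the standard basis `e_1, e_2, e_3`, the vectors `(1, x_i, y_i)`, `i ∈ α`, and the
vectors `(0, 1, z_j)`, `j ∈ β`. -/
abbrev Vec (α β : Type) : Type := Fin 3 ⊕ (α ⊕ β)

/-- The variables `x_i, y_i` (`i ∈ α`) and `z_j` (`j ∈ β`). -/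
abbrev Var (α β : Type) : Type := (α ⊕ α) ⊕ β

/-- The vectors, for elements `x_i, y_i, z_j` of a ring. -/
def vecs {C α β : Type} [CommRing C] (c : Var α β → C) : Vec α β → Fin 3 → C
  | Sum.inl k => Pi.single k 1
  | Sum.inr (Sum.inl i) => ![1, c (Sum.inl (Sum.inl i)), c (Sum.inl (Sum.inr i))]
  | Sum.inr (Sum.inr j) => ![0, 1, c (Sum.inr j)]

/-- The determinant of three of the vectors. -/
def det3 {C α β : Type} [CommRing C] (c : Var α β → C) (t : Vec α β × Vec α β × Vec α β) : C :=
  Matrix.det (Matrix.of ![vecs c t.1, vecs c t.2.1, vecs c t.2.2])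

lemma det3_map {C D α β : Type} [CommRing C] [CommRing D] (f : C →+* D) (c : Var α β → C)
    (t : Vec α β × Vec α β × Vec α β) : f (det3 c t) = det3 (fun v => f (c v)) t := by
  have h : ∀ (p : Vec α β) (k : Fin 3), f (vecs c p k) = vecs (fun v => f (c v)) p k := by
    rintro (l | i | j) k
    · simp only [vecs, Pi.single_apply]
      split_ifs
      · exact map_one f
      · exact map_zero f
    · fin_cases k <;> simp [vecs]
    · fin_cases k <;> simp [vecs]
  simp only [det3, Matrix.det_fin_three, Matrix.of_apply, Matrix.cons_val_zero, Matrix.cons_val_one,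
    Matrix.cons_val, map_add, map_sub, map_mul, h]

section sys

variable {a b c : ℕ}

/-- the points: `PX i` and four points for every equation -/
abbrev Al (a c : ℕ) : Type := Fin a ⊕ (Fin c × Fin 4)

/-- the point `(x_i, 0)` or the origin -/
def px (s : Option (Fin a × Fin b)) : Vec (Al a c) (Fin b) :=
  s.elim (Sum.inl 0) fun e => Sum.inr (Sum.inl (Sum.inl e.1))

/-- the direction of slope `y_j` or the horizontal direction -/
def sl (s : Option (Fin a × Fin b)) : Vec (Al a c) (Fin b) :=
  s.elim (Sum.inl 1) fun e => Sum.inr (Sum.inr e.2)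

/-- one of the four points of an equation -/
def pt (l : Fin c) (t : Fin 4) : Vec (Al a c) (Fin b) := Sum.inr (Sum.inl (Sum.inr (l, t)))

/-- the conditions -/
def cond (σ : Fin c → Fin 3 → Option (Fin a × Fin b)) : Fin a ⊕ (Fin c × Fin 9) →
    Vec (Al a c) (Fin b) × Vec (Al a c) (Fin b) × Vec (Al a c) (Fin b)
  | Sum.inl i => (Sum.inr (Sum.inl (Sum.inl i)), Sum.inl 0, Sum.inl 1)
  | Sum.inr (l, 0) => (pt l 0, px (σ l 0), Sum.inl 2)
  | Sum.inr (l, 1) => (pt l 0, Sum.inl 0, sl (σ l 0))
  | Sum.inr (l, 2) => (pt l 1, Sum.inl 0, Sum.inl 2)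
  | Sum.inr (l, 3) => (pt l 1, pt l 0, Sum.inl 1)
  | Sum.inr (l, 4) => (pt l 2, px (σ l 1), Sum.inl 2)
  | Sum.inr (l, 5) => (pt l 2, pt l 1, sl (σ l 1))
  | Sum.inr (l, 6) => (pt l 3, Sum.inl 0, Sum.inl 2)
  | Sum.inr (l, 7) => (pt l 3, pt l 2, Sum.inl 1)
  | Sum.inr (l, 8) => (px (σ l 2), pt l 3, sl (σ l 2))

/-- the coordinates of the points in terms of the solution -/
def coord {C : Type} [CommRing C] (σ : Fin c → Fin 3 → Option (Fin a × Fin b)) (x : Fin a → C)
    (y : Fin b → C) : Var (Al a c) (Fin b) → C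
  | Sum.inl (Sum.inl (Sum.inl i)) => x i
  | Sum.inl (Sum.inr (Sum.inl _)) => 0
  | Sum.inl (Sum.inl (Sum.inr (l, t))) => ![(σ l 0).elim 0 fun e => x e.1, 0,
      (σ l 1).elim 0 fun e => x e.1, 0] t
  | Sum.inl (Sum.inr (Sum.inr (l, t))) => ![(σ l 0).elim 0 fun e => x e.1 * y e.2,
      (σ l 0).elim 0 fun e => x e.1 * y e.2,
      ((σ l 0).elim 0 fun e => x e.1 * y e.2) + (σ l 1).elim 0 fun e => x e.1 * y e.2,
      ((σ l 0).elim 0 fun e => x e.1 * y e.2) + (σ l 1).elim 0 fun e => x e.1 * y e.2] t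
  | Sum.inr j => y j

/-- a point of the configuration satisfies the conditions -/
lemma cond_coord {C : Type} [CommRing C] (σ : Fin c → Fin 3 → Option (Fin a × Fin b))
    (x : Fin a → C) (y : Fin b → C)
    (h : ∀ l, ∑ t, (σ l t).elim 0 (fun e => x e.1 * y e.2) = 0) (k : Fin a ⊕ (Fin c × Fin 9)) :
    det3 (coord σ x y) (cond σ k) = 0 := by
  have h' := fun l => h l
  simp only [Fin.sum_univ_three] at h'
  rcases k with i | ⟨l, k⟩
  · simp [det3, Matrix.det_fin_three, cond, vecs, coord]
  · have h1 := h' l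
    fin_cases k <;> rcases h0 : σ l 0 with _ | e0 <;> rcases h2 : σ l 1 with _ | e1 <;>
      rcases h3 : σ l 2 with _ | e2 <;>
      simp [det3, Matrix.det_fin_three, cond, vecs, coord, pt, px, sl, h0, h2, h3] <;>
      simp [h0, h2, h3] at h1 <;> first | linear_combination h1 | linear_combination (-1 : C) * h1

lemma vecs_one {C α β : Type} [CommRing C] (c : Var α β → C) :
    vecs c (Sum.inl 0) = ![1, 0, 0] := by
  funext k
  fin_cases k <;> simp [vecs]

lemma vecs_two {C α β : Type} [CommRing C] (c : Var α β → C) :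
    vecs c (Sum.inl 1) = ![0, 1, 0] := by
  funext k
  fin_cases k <;> simp [vecs]

lemma vecs_three {C α β : Type} [CommRing C] (c : Var α β → C) :
    vecs c (Sum.inl 2) = ![0, 0, 1] := by
  funext k
  fin_cases k <;> simp [vecs]

lemma vecs_px {C : Type} [CommRing C] (c' : Var (Al a c) (Fin b) → C)
    (s : Option (Fin a × Fin b)) : vecs c' (px s) =
      ![1, s.elim 0 fun e => c' (Sum.inl (Sum.inl (Sum.inl e.1))),
        s.elim 0 fun e => c' (Sum.inl (Sum.inr (Sum.inl e.1)))] := by
  rcases s with _ | e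
  · exact vecs_one c'
  · rfl

lemma vecs_sl {C : Type} [CommRing C] (c' : Var (Al a c) (Fin b) → C)
    (s : Option (Fin a × Fin b)) : vecs c' (sl s) =
      ![0, 1, s.elim 0 fun e => c' (Sum.inr e.2)] := by
  rcases s with _ | e
  · exact vecs_two c'
  · rfl

lemma vecs_pt {C : Type} [CommRing C] (c' : Var (Al a c) (Fin b) → C) (l : Fin c) (t : Fin 4) :
    vecs c' (pt l t) = ![1, c' (Sum.inl (Sum.inl (Sum.inr (l, t)))),
      c' (Sum.inl (Sum.inr (Sum.inr (l, t))))] := rfl

lemma elim_mul {C : Type} [CommRing C] (s : Option (Fin a × Fin b)) (x : Fin a → C)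
    (y : Fin b → C) : (s.elim 0 fun e => x e.1) * (s.elim 0 fun e => y e.2) =
      s.elim 0 fun e => x e.1 * y e.2 := by
  rcases s with _ | e
  · exact mul_zero _
  · rfl

/-- Conversely the coordinates of a configuration which satisfies the conditions are given by a
solution of the equations. -/
lemma coord_cond {C : Type} [CommRing C] (σ : Fin c → Fin 3 → Option (Fin a × Fin b))
    (c' : Var (Al a c) (Fin b) → C) (h : ∀ k, det3 c' (cond σ k) = 0) :
    (∀ l, ∑ t, (σ l t).elim 0 (fun e => c' (Sum.inl (Sum.inl (Sum.inl e.1))) *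
      c' (Sum.inr e.2)) = 0) ∧
    ∀ v, coord σ (fun i => c' (Sum.inl (Sum.inl (Sum.inl i)))) (fun j => c' (Sum.inr j)) v =
      c' v := by
  have hy : ∀ i, c' (Sum.inl (Sum.inr (Sum.inl i))) = 0 := by
    intro i
    have h0 := h (Sum.inl i)
    simp only [det3, cond, vecs_one, vecs_two] at h0
    simpa [Matrix.det_fin_three, vecs] using h0
  have hz : ∀ s : Option (Fin a × Fin b),
      (s.elim 0 fun e => c' (Sum.inl (Sum.inr (Sum.inl e.1)))) = 0 := by
    rintro (_ | e)
    · rfl
    · exact hy e.1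
  have h0 := fun l => h (Sum.inr (l, 0))
  have h1 := fun l => h (Sum.inr (l, 1))
  have h2 := fun l => h (Sum.inr (l, 2))
  have h3 := fun l => h (Sum.inr (l, 3))
  have h4 := fun l => h (Sum.inr (l, 4))
  have h5 := fun l => h (Sum.inr (l, 5))
  have h6 := fun l => h (Sum.inr (l, 6))
  have h7 := fun l => h (Sum.inr (l, 7))
  have h8 := fun l => h (Sum.inr (l, 8))
  simp only [det3, cond, vecs_one, vecs_two, vecs_three, vecs_px, vecs_sl, vecs_pt, hz,
    Matrix.det_fin_three, Matrix.of_apply, Matrix.cons_val_zero, Matrix.cons_val_one,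
    Matrix.cons_val] at h0 h1 h2 h3 h4 h5 h6 h7 h8
  have k0 : ∀ l, (σ l 0).elim 0 (fun e => c' (Sum.inl (Sum.inl (Sum.inl e.1)))) =
      c' (Sum.inl (Sum.inl (Sum.inr (l, 0)))) := fun l => by linear_combination h0 l
  have k1 : ∀ l, (σ l 0).elim 0 (fun e => c' (Sum.inl (Sum.inl (Sum.inl e.1))) *
      c' (Sum.inr e.2)) = c' (Sum.inl (Sum.inr (Sum.inr (l, 0)))) := fun l => by
    rw [← elim_mul (σ l 0) (fun i => c' (Sum.inl (Sum.inl (Sum.inl i)))) (fun j => c' (Sum.inr j)),
      k0 l]
    linear_combination (-1 : C) * h1 l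
  have k2 : ∀ l, c' (Sum.inl (Sum.inl (Sum.inr (l, 1)))) = 0 := fun l => by
    linear_combination (-1 : C) * h2 l
  have k3 : ∀ l, c' (Sum.inl (Sum.inr (Sum.inr (l, 1)))) =
      c' (Sum.inl (Sum.inr (Sum.inr (l, 0)))) := fun l => by linear_combination h3 l
  have k4 : ∀ l, (σ l 1).elim 0 (fun e => c' (Sum.inl (Sum.inl (Sum.inl e.1)))) =
      c' (Sum.inl (Sum.inl (Sum.inr (l, 2)))) := fun l => by linear_combination h4 l
  have k5 : ∀ l, c' (Sum.inl (Sum.inr (Sum.inr (l, 2)))) =
      c' (Sum.inl (Sum.inr (Sum.inr (l, 1)))) +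
        (σ l 1).elim 0 (fun e => c' (Sum.inl (Sum.inl (Sum.inl e.1))) * c' (Sum.inr e.2)) :=
    fun l => by
    rw [← elim_mul (σ l 1) (fun i => c' (Sum.inl (Sum.inl (Sum.inl i)))) (fun j => c' (Sum.inr j)),
      k4 l]
    have h9 := h5 l
    rw [k2 l] at h9
    linear_combination h9
  have k6 : ∀ l, c' (Sum.inl (Sum.inl (Sum.inr (l, 3)))) = 0 := fun l => by
    linear_combination (-1 : C) * h6 l
  have k7 : ∀ l, c' (Sum.inl (Sum.inr (Sum.inr (l, 3)))) =
      c' (Sum.inl (Sum.inr (Sum.inr (l, 2)))) := fun l => by linear_combination h7 l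
  have k8 : ∀ l, c' (Sum.inl (Sum.inr (Sum.inr (l, 3)))) +
      (σ l 2).elim 0 (fun e => c' (Sum.inl (Sum.inl (Sum.inl e.1))) * c' (Sum.inr e.2)) = 0 :=
    fun l => by
    rw [← elim_mul (σ l 2) (fun i => c' (Sum.inl (Sum.inl (Sum.inl i)))) (fun j => c' (Sum.inr j))]
    have h9 := h8 l
    rw [k6 l] at h9
    linear_combination (-1 : C) * h9
  have m2 : ∀ l, (σ l 0).elim 0 (fun e => c' (Sum.inl (Sum.inl (Sum.inl e.1))) *
      c' (Sum.inr e.2)) + (σ l 1).elim 0 (fun e => c' (Sum.inl (Sum.inl (Sum.inl e.1))) *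
      c' (Sum.inr e.2)) = c' (Sum.inl (Sum.inr (Sum.inr (l, 2)))) := fun l => by
    linear_combination k1 l - k3 l - k5 l
  refine ⟨fun l => ?_, ?_⟩
  · rw [Fin.sum_univ_three]
    linear_combination k8 l - k7 l - k5 l - k3 l + k1 l
  · rintro ((( i | ⟨l, t⟩) | (i | ⟨l, t⟩)) | j)
    · rfl
    · fin_cases t
      · exact k0 l
      · exact (k2 l).symm
      · exact k4 l
      · exact (k6 l).symm
    · exact (hy i).symm
    · fin_cases t
      · exact k1 l
      · exact (k1 l).trans (k3 l).symm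
      · exact m2 l
      · exact (m2 l).trans (k7 l).symm
    · rfl

/-- three slots for the terms -/
lemma exists_slots (E : Finset (Fin a × Fin b)) (hE : E.card ≤ 3) :
    ∃ σ : Fin 3 → Option (Fin a × Fin b), ∀ (C : Type) [CommRing C] (g : Fin a × Fin b → C),
      ∑ t, (σ t).elim 0 g = ∑ e ∈ E, g e := by
  classical
  have h : E.card = 0 ∨ E.card = 1 ∨ E.card = 2 ∨ E.card = 3 := by omega
  rcases h with h | h | h | h
  · rw [Finset.card_eq_zero] at h
    refine ⟨![none, none, none], fun C _ g => ?_⟩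
    simp [h, Fin.sum_univ_three]
  · obtain ⟨e, rfl⟩ := Finset.card_eq_one.1 h
    refine ⟨![some e, none, none], fun C _ g => ?_⟩
    simp [Fin.sum_univ_three]
  · obtain ⟨e, f, hef, rfl⟩ := Finset.card_eq_two.1 h
    refine ⟨![some e, some f, none], fun C _ g => ?_⟩
    simp [Fin.sum_univ_three, Finset.sum_pair hef]
  · obtain ⟨e, f, g', h1, h2, h3, rfl⟩ := Finset.card_eq_three.1 h
    refine ⟨![some e, some f, some g'], fun C _ g => ?_⟩
    rw [Finset.sum_insert (by simp [h1, h2]), Finset.sum_pair h3]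
    simp [Fin.sum_univ_three, add_assoc]

variable (R : Type) [CommRing R]

/-- the generic vectors -/
noncomputable def gen (α β : Type) (t : Vec α β × Vec α β × Vec α β) : MvPolynomial (Var α β) R :=
  det3 X t

/-- The ring of a system of bilinear equations with at most three terms is the ring of a closed
subscheme given by determinants. -/
theorem rep_system (E : Fin c → Finset (Fin a × Fin b)) (hE : ∀ l, (E l).card ≤ 3) :
    ∃ (alg : Algebra (MvPolynomial (Var (Al a c) (Fin b)) R)
        (MvPolynomial (Fin a ⊕ Fin b) R ⧸ Ideal.span (Set.range fun l => few R (E l))))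
      (_ : IsScalarTower R (MvPolynomial (Var (Al a c) (Fin b)) R)
        (MvPolynomial (Fin a ⊕ Fin b) R ⧸ Ideal.span (Set.range fun l => few R (E l))))
      (K : Finset (Vec (Al a c) (Fin b) × Vec (Al a c) (Fin b) × Vec (Al a c) (Fin b))),
      @Rep _ _ _ (gen R (Al a c) (Fin b)) ↑K ∅
        (MvPolynomial (Fin a ⊕ Fin b) R ⧸ Ideal.span (Set.range fun l => few R (E l))) _ alg := by
  classical
  choose σ hσ using fun l => exists_slots (E l) (hE l)
  set B := MvPolynomial (Fin a ⊕ Fin b) R ⧸ Ideal.span (Set.range fun l => few R (E l)) with hB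
  let x : Fin a → B := fun i => Ideal.Quotient.mk _ (X (Sum.inl i))
  let y : Fin b → B := fun j => Ideal.Quotient.mk _ (X (Sum.inr j))
  have hxy : ∀ l, ∑ t, (σ l t).elim 0 (fun e => x e.1 * y e.2) = 0 := by
    intro l
    rw [hσ l B (fun e => x e.1 * y e.2)]
    have h1 : (Ideal.Quotient.mk (Ideal.span (Set.range fun l => few R (E l)))) (few R (E l)) = 0 :=
      Ideal.Quotient.eq_zero_iff_mem.2 (Ideal.subset_span ⟨l, rfl⟩)
    rw [few, map_sum] at h1
    rw [← h1]
    refine Finset.sum_congr rfl fun e _ => ?_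
    rw [map_mul]
  let φ : MvPolynomial (Var (Al a c) (Fin b)) R →ₐ[R] B := aeval (coord σ x y)
  letI alg : Algebra (MvPolynomial (Var (Al a c) (Fin b)) R) B := φ.toRingHom.toAlgebra
  have hφ : algebraMap (MvPolynomial (Var (Al a c) (Fin b)) R) B = φ.toRingHom := rfl
  have hX : ∀ v, φ.toRingHom (X v) = coord σ x y v := fun v => aeval_X _ v
  refine ⟨alg, IsScalarTower.of_algebraMap_eq fun r => (φ.commutes r).symm,
    Finset.univ.image (cond σ), ?_, ?_, ?_, ?_⟩
  · intro t ht
    rw [Finset.mem_coe, Finset.mem_image] at ht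
    obtain ⟨k, _, rfl⟩ := ht
    rw [hφ, gen, det3_map]
    simp only [hX]
    exact cond_coord σ x y hxy k
  · intro t ht
    exact ht.elim
  · intro C _ f g hfg
    apply Ideal.Quotient.ringHom_ext
    apply MvPolynomial.ringHom_ext
    · intro r
      have h1 := RingHom.congr_fun hfg (MvPolynomial.C r)
      rw [hφ, RingHom.comp_apply, RingHom.comp_apply] at h1
      have h2 : φ.toRingHom (MvPolynomial.C r) = Ideal.Quotient.mk _ (MvPolynomial.C r) :=
        φ.commutes r
      rw [h2] at h1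
      exact h1
    · rintro (i | j)
      · have h1 := RingHom.congr_fun hfg (X (Sum.inl (Sum.inl (Sum.inl i))))
        rw [hφ, RingHom.comp_apply, RingHom.comp_apply, hX] at h1
        exact h1
      · have h1 := RingHom.congr_fun hfg (X (Sum.inr j))
        rw [hφ, RingHom.comp_apply, RingHom.comp_apply, hX] at h1
        exact h1
  · intro C _ f hf _
    have h0 : ∀ k, det3 (fun v => f (X v)) (cond σ k) = 0 := by
      intro k
      rw [← det3_map]
      exact hf _ (by
        rw [Finset.mem_coe]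
        exact Finset.mem_image_of_mem _ (Finset.mem_univ k))
    obtain ⟨h1, h2⟩ := coord_cond σ (fun v => f (X v)) h0
    let g0 : MvPolynomial (Fin a ⊕ Fin b) R →+* C := eval₂Hom (f.comp MvPolynomial.C)
      (Sum.elim (fun i => f (X (Sum.inl (Sum.inl (Sum.inl i))))) fun j => f (X (Sum.inr j)))
    have hg0 : ∀ v, g0 (X v) = (Sum.elim (fun i => f (X (Sum.inl (Sum.inl (Sum.inl i)))))
        fun j => f (X (Sum.inr j)) : Fin a ⊕ Fin b → C) v := fun v => eval₂Hom_X' _ _ v
    have hg1 : ∀ r, g0 (MvPolynomial.C r) = f (MvPolynomial.C r) := fun r => eval₂Hom_C _ _ r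
    have hg2 : Ideal.span (Set.range fun l => few R (E l)) ≤ RingHom.ker g0 := by
      rw [Ideal.span_le]
      rintro _ ⟨l, rfl⟩
      change g0 (few R (E l)) = 0
      rw [few, map_sum, ← h1 l, hσ l C]
      refine Finset.sum_congr rfl fun e _ => ?_
      rw [map_mul, hg0, hg0]
      rfl
    let g : B →+* C := Ideal.Quotient.lift _ g0 fun p hp => hg2 hp
    have hg : ∀ p, g (Ideal.Quotient.mk _ p) = g0 p := fun p => Ideal.Quotient.lift_mk _ _ _
    refine ⟨g, ?_⟩
    apply MvPolynomial.ringHom_ext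
    · intro r
      have h3 : φ.toRingHom (MvPolynomial.C r) = Ideal.Quotient.mk _ (MvPolynomial.C r) :=
        φ.commutes r
      rw [RingHom.comp_apply, hφ, h3, hg, hg1]
    · intro v
      rw [RingHom.comp_apply, hφ, hX, ← h2 v]
      have h4 : (fun i => f (X (Sum.inl (Sum.inl (Sum.inl i))))) = fun i => g (x i) := by
        funext i
        change _ = g (Ideal.Quotient.mk _ (X (Sum.inl i)))
        rw [hg, hg0]
        rfl
      have h5 : (fun j => f (X (Sum.inr j))) = fun j => g (y j) := by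
        funext j
        change _ = g (Ideal.Quotient.mk _ (X (Sum.inr j)))
        rw [hg, hg0]
        rfl
      rw [h4, h5]
      have h6 : ∀ s : Option (Fin a × Fin b), g (s.elim 0 fun e => x e.1) =
          s.elim 0 fun e => g (x e.1) := by
        rintro (_ | e)
        · exact map_zero g
        · rfl
      have h7 : ∀ s : Option (Fin a × Fin b), g (s.elim 0 fun e => x e.1 * y e.2) =
          s.elim 0 fun e => g (x e.1) * g (y e.2) := by
        rintro (_ | e)
        · exact map_zero g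
        · exact map_mul g _ _
      rcases v with (((i | ⟨l, t⟩) | (i | ⟨l, t⟩)) | j)
      · rfl
      · fin_cases t
        · exact h6 _
        · exact map_zero g
        · exact h6 _
        · exact map_zero g
      · exact map_zero g
      · fin_cases t
        · exact h7 _
        · exact h7 _
        · exact (map_add g _ _).trans (congrArg₂ _ (h7 _) (h7 _))
        · exact (map_add g _ _).trans (congrArg₂ _ (h7 _) (h7 _))
      · rfl

end sys

end Pool.Agent.W5h77.MR
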