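import Pool.Agent.W5h77.MR.Mat

set_option autoImplicit false

/-!
# Minors of matrices with three rows decide every property closed under closed-open decompositions
-/

open CategoryTheory AlgebraicGeometry MvPolynomial Pool.Agent.Y116.UV Pool.Agent.Q282.UK
  Pool.Agent.Q282.UZ

namespace Pool.Agent.W5h77.MR

variable {R : Type} [CommRing R] {sep : Prop} {P : Sch R → Prop}

/-- The triples of columns of the matrix `(I | M)`, where `M` has the columns `0, …, m - 1`. -/
abbrev Trp (m : ℕ) : Type := (Fin 3 ⊕ Fin m) × (Fin 3 ⊕ Fin m) × (Fin 3 ⊕ Fin m)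

/-- The open subscheme of the space of matrices `M` with three rows and `m` columns over `R`, where the
maximal minors of `(I | M)` in the set `S` are invertible. -/
noncomputable def openS (R : Type) [CommRing R] (m : ℕ) (S : Finset (Trp m)) : Sch R :=
  aff R (Localization.Away (∏ t ∈ S, gmin R (Fin m) t))

/-- The ring of functions on the closed subscheme of the space of matrices `M` where the maximal
minors of `(I | M)` outside of the set `S` are zero. -/
def Van (R : Type) [CommRing R] (m : ℕ) (S : Finset (Trp m)) : Type :=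
  MvPolynomial (Fin 3 × Fin m) R ⧸ Ideal.span (gmin R (Fin m) '' (↑S)ᶜ)

noncomputable instance (R : Type) [CommRing R] (m : ℕ) (S : Finset (Trp m)) :
    CommRing (Van R m S) :=
  Ideal.Quotient.commRing _

noncomputable instance (R : Type) [CommRing R] (m : ℕ) (S : Finset (Trp m)) :
    Algebra R (Van R m S) :=
  Ideal.instAlgebraQuotient R _

/-- The product of the minors in `S`. -/
noncomputable def vprod (R : Type) [CommRing R] (m : ℕ) (S : Finset (Trp m)) : Van R m S :=
  Ideal.Quotient.mk _ (∏ t ∈ S, gmin R (Fin m) t)

/-- The locally closed subscheme of the space of matrices `M` with three rows and `m` columns over `R`,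
where the maximal minors of `(I | M)` in the set `S` are invertible and all the others are zero. -/
noncomputable def cellS (R : Type) [CommRing R] (m : ℕ) (S : Finset (Trp m)) : Sch R :=
  aff R (Localization.Away (vprod R m S))

lemma cellS_eq (R : Type) [CommRing R] (m : ℕ) (S : Finset (Trp m)) :
    cellS R m S = aff R (Loc (gmin R (Fin m)) (↑S)ᶜ S) := rfl

theorem all_of_good (hR : ShortPresents R) (hP : Clo sep P)
    (h : ∀ (m : ℕ) (E H : Finset (Trp m)), Good R (gmin R (Fin m)) P ↑E ↑H) :
    ∀ X : Sch R, FT sep X → P X := by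
  classical
  rw [three_iff hR hP]
  intro a b c E hE
  obtain ⟨alg, tow, K, hK⟩ := rep_system R E hE
  obtain ⟨B', i1, i2, i3, j, u, hT, hjR, hd⟩ := exists_tor hP
    (MvPolynomial (Fin a ⊕ Fin b) R ⧸ Ideal.span (Set.range fun l => few R (E l)))
    (Al a c ⊕ Fin b)
  obtain ⟨alg', tow', hK'⟩ := @rep_mat _ _ _ (Fintype.equivFin (Al a c ⊕ Fin b)).symm _ _ _ R _ K
    _ B' _ i1 _ i2 alg tow hK j u hT hjR
  exact hd (@h _ _ _ B' i1 alg' i2 tow' hK')

lemma p_zero (hP : Clo sep P) {A : Type} [CommRing A] [Algebra R A] [Algebra.FiniteType R A]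
    (h : P (aff R A)) {B : Type} [CommRing B] [Algebra R B] [Subsingleton B] : P (aff R B) := by
  have h1 : P (aff R (A ⧸ Ideal.span {(0 : A)})) := by
    have e : A ≃ₐ[R] (A ⧸ Ideal.span {(0 : A)}) :=
      (AlgEquiv.quotientBot R A).symm.trans (Ideal.quotientEquivAlgOfEq R (by simp))
    exact clo_alg hP e h
  have h2 : P (aff R (Localization.Away (0 : A))) :=
    hP.opened _ _ (ft_aff sep) (triple_away (0 : A)) h1 h
  have h3 : Subsingleton (Localization.Away (0 : A)) := by
    have h4 : IsUnit (algebraMap A (Localization.Away (0 : A)) 0) :=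
      IsLocalization.map_units _ (⟨0, Submonoid.mem_powers 0⟩ : Submonoid.powers (0 : A))
    rw [map_zero, isUnit_zero_iff] at h4
    exact subsingleton_of_zero_eq_one h4
  have hf : Algebra.FiniteType R (Localization.Away (0 : A)) := ft_away A 0
  have h5 : Subsingleton (Localization.Away (0 : A)) := h3
  have e : Localization.Away (0 : A) ≃ₐ[R] B :=
    { toFun := fun _ => 0
      invFun := fun _ => 0
      left_inv := fun _ => Subsingleton.elim _ _
      right_inv := fun _ => Subsingleton.elim _ _
      map_mul' := fun _ _ => Subsingleton.elim _ _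
      map_add' := fun _ _ => Subsingleton.elim _ _
      commutes' := fun _ => Subsingleton.elim _ _ }
  exact clo_alg hP e h2

theorem all_iff (hR : ShortPresents R) (hP : Clo sep P) (hc : ClosedRule sep P) : List.TFAE
    [∀ X : Sch R, FT sep X → P X,
      ∀ (m : ℕ) (S : Finset (Trp m)), P (openS R m S),
      ∀ (m : ℕ) (S : Finset (Trp m)), P (cellS R m S)] := by
  classical
  tfae_have 1 → 2 := by
    intro h m S
    have hf : Algebra.FiniteType R (Localization.Away (∏ t ∈ S, gmin R (Fin m) t)) := ft_away _ _
    exact h _ (ft_aff sep)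
  tfae_have 1 → 3 := by
    intro h m S
    have hf : Algebra.FiniteType R (Loc (gmin R (Fin m)) (↑S)ᶜ S) := ft_away _ _
    rw [cellS_eq]
    exact h _ (ft_aff sep)
  tfae_have 2 → 1 := fun h => all_of_good hR hP fun m E H =>
    good_of_open hP hc (fun S => h m S) E H
  tfae_have 3 → 1 := by
    intro h
    simp only [cellS_eq] at h
    refine all_of_good hR hP fun m E H => ?_
    by_cases hd : Disjoint E H
    · have h1 : E.card + H.card ≤ Fintype.card (Trp m) := by
        rw [← Finset.card_union_of_disjoint hd]
        exact Finset.card_le_univ _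
      exact good_of_strata hP (fun S => h m S) (Fintype.card (Trp m) - (E.card + H.card)) E H hd
        (by omega)
    · rw [Finset.not_disjoint_iff] at hd
      obtain ⟨t, ht1, ht2⟩ := hd
      intro B _ _ _ _ hB
      have h1 := hB.zero t ht1
      have h2 := hB.unit t ht2
      rw [h1, isUnit_zero_iff] at h2
      have h3 : Subsingleton B := subsingleton_of_zero_eq_one h2
      have hf : Algebra.FiniteType R (Loc (gmin R (Fin m)) (↑(∅ : Finset (Trp m)))ᶜ ∅) :=
        ft_away _ _
      exact p_zero hP (h m ∅)
  tfae_finish

end Pool.Agent.W5h77.MR
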