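import Pool.Agent.W5h93.FG.Defs

set_option autoImplicit false

/-!
# Locally closed subschemes given by a finite family of functions
-/

open CategoryTheory AlgebraicGeometry Pool.Agent.Y116.UV Pool.Agent.Q282.UK

namespace Pool.Agent.W5h77.MR

section rep

variable {A : Type} [CommRing A] {ι : Type} (δ : ι → A)

/-- The `A`-algebra `B` is the algebra of functions on the locally closed subscheme of `Spec A` where
the functions `δ e`, `e ∈ E`, vanish and the functions `δ h`, `h ∈ H`, are invertible (universal
property). -/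
structure Rep (E H : Set ι) (B : Type) [CommRing B] [Algebra A B] : Prop where
  zero : ∀ e ∈ E, algebraMap A B (δ e) = 0
  unit : ∀ h ∈ H, IsUnit (algebraMap A B (δ h))
  ext : ∀ (C : Type) [CommRing C] (f g : B →+* C),
    f.comp (algebraMap A B) = g.comp (algebraMap A B) → f = g
  lift : ∀ (C : Type) [CommRing C] (f : A →+* C), (∀ e ∈ E, f (δ e) = 0) →
    (∀ h ∈ H, IsUnit (f (δ h))) → ∃ g : B →+* C, g.comp (algebraMap A B) = f

variable {δ}

lemma Rep.iso {E H : Set ι} {B B' : Type} [CommRing B] [CommRing B'] [Algebra A B] [Algebra A B']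
    (h : Rep δ E H B) (h' : Rep δ E H B') : Nonempty (B ≃ₐ[A] B') := by
  obtain ⟨g, hg⟩ := h.lift B' (algebraMap A B') h'.zero h'.unit
  obtain ⟨g', hg'⟩ := h'.lift B (algebraMap A B) h.zero h.unit
  have h1 : g'.comp g = RingHom.id B := h.ext B _ _ (by
    rw [RingHom.comp_assoc, hg, hg', RingHom.id_comp])
  have h2 : g.comp g' = RingHom.id B' := h'.ext B' _ _ (by
    rw [RingHom.comp_assoc, hg', hg, RingHom.id_comp])
  exact ⟨AlgEquiv.ofRingEquiv (f := RingEquiv.ofRingHom g g' h2 h1) fun x => by
    exact RingHom.congr_fun hg x⟩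

lemma rep_self : Rep δ ∅ ∅ A where
  zero e he := he.elim
  unit e he := he.elim
  ext C _ f g h := by
    rw [Algebra.algebraMap_self, RingHom.comp_id, RingHom.comp_id] at h
    exact h
  lift C _ f _ _ := ⟨f, by rw [Algebra.algebraMap_self, RingHom.comp_id]⟩

lemma Rep.quot {E H : Set ι} {B : Type} [CommRing B] [Algebra A B] (h : Rep δ E H B) (e : ι) :
    Rep δ (insert e E) H (B ⧸ Ideal.span {algebraMap A B (δ e)}) where
  zero e' he' := by
    change Ideal.Quotient.mk _ (algebraMap A B (δ e')) = 0
    rcases he' with rfl | he'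
    · exact Ideal.Quotient.eq_zero_iff_mem.2 (Ideal.mem_span_singleton_self _)
    · rw [h.zero e' he', map_zero]
  unit e' he' := by
    change IsUnit (Ideal.Quotient.mk _ (algebraMap A B (δ e')))
    exact (h.unit e' he').map _
  ext C _ f g hfg := by
    apply Ideal.Quotient.ringHom_ext
    apply h.ext
    exact hfg
  lift C _ f hE hH := by
    obtain ⟨g, hg⟩ := h.lift C f (fun e' he' => hE e' (Set.mem_insert_of_mem _ he')) hH
    refine ⟨Ideal.Quotient.lift _ g ?_, ?_⟩
    · intro a ha
      have h1 : Ideal.span {algebraMap A B (δ e)} ≤ RingHom.ker g := by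
        rw [Ideal.span_le, Set.singleton_subset_iff]
        change g (algebraMap A B (δ e)) = 0
        rw [← RingHom.comp_apply, hg]
        exact hE e (Set.mem_insert _ _)
      exact h1 ha
    · ext x
      exact RingHom.congr_fun hg x

lemma Rep.loc {E H : Set ι} {B : Type} [CommRing B] [Algebra A B] (h : Rep δ E H B) (S : Finset ι)
    {w : B} (hw : w = algebraMap A B (∏ s ∈ S, δ s)) :
    Rep δ E (H ∪ ↑S) (Localization.Away w) where
  zero e he := by
    rw [IsScalarTower.algebraMap_apply A B, h.zero e he, map_zero]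
  unit e he := by
    rw [IsScalarTower.algebraMap_apply A B]
    rcases he with he | he
    · exact (h.unit e he).map _
    · have h1 : IsUnit (algebraMap B (Localization.Away w) w) :=
        IsLocalization.map_units _ (⟨w, Submonoid.mem_powers w⟩ : Submonoid.powers w)
      refine isUnit_of_dvd_unit ?_ h1
      apply map_dvd
      rw [hw]
      apply map_dvd
      exact Finset.dvd_prod_of_mem _ he
  ext C _ f g hfg := by
    apply IsLocalization.ringHom_ext (Submonoid.powers w)
    apply h.ext
    rw [RingHom.comp_assoc, RingHom.comp_assoc, ← IsScalarTower.algebraMap_eq]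
    exact hfg
  lift C _ f hE hH := by
    obtain ⟨g, hg⟩ := h.lift C f hE (fun e he => hH e (Or.inl he))
    have h1 : IsUnit (g w) := by
      rw [hw, ← RingHom.comp_apply, hg, map_prod]
      rw [IsUnit.prod_iff]
      intro s hs
      exact hH s (Or.inr hs)
    refine ⟨IsLocalization.Away.lift w h1, ?_⟩
    rw [IsScalarTower.algebraMap_eq A B, ← RingHom.comp_assoc, IsLocalization.Away.lift_comp, hg]

end rep

section clo

variable {R A : Type} [CommRing R] [CommRing A] [Algebra R A] {ι : Type} (δ : ι → A)

/-- The algebra of functions on the locally closed subscheme `δ e = 0` (`e ∈ E`), `δ h ≠ 0` (`h ∈ H`). -/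
abbrev Loc (E : Set ι) (H : Finset ι) : Type :=
  Localization.Away (Ideal.Quotient.mk (Ideal.span (δ '' E)) (∏ h ∈ H, δ h))

lemma rep_quot (E : Set ι) : Rep δ E ∅ (A ⧸ Ideal.span (δ '' E)) where
  zero e he := Ideal.Quotient.eq_zero_iff_mem.2 (Ideal.subset_span ⟨e, he, rfl⟩)
  unit e he := he.elim
  ext C _ f g hfg := Ideal.Quotient.ringHom_ext hfg
  lift C _ f hE _ := by
    refine ⟨Ideal.Quotient.lift _ f ?_, ?_⟩
    · intro a ha
      have h1 : Ideal.span (δ '' E) ≤ RingHom.ker f := by
        rw [Ideal.span_le]
        rintro _ ⟨e, he, rfl⟩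
        exact hE e he
      exact h1 ha
    · ext x
      rfl

lemma rep_loc (E : Set ι) (H : Finset ι) : Rep δ E ↑H (Loc δ E H) := by
  have h := (rep_quot δ E).loc H rfl
  rw [Set.empty_union] at h
  exact h

lemma rep_open (H : Finset ι) : Rep δ ∅ ↑H (Localization.Away (∏ h ∈ H, δ h)) := by
  have h := (rep_self (δ := δ)).loc H (w := ∏ h ∈ H, δ h) rfl
  rw [Set.empty_union] at h
  exact h

variable (R) in
/-- `P` holds for the locally closed subscheme -/
def Good (P : Sch R → Prop) (E H : Set ι) : Prop :=
  ∀ (B : Type) [CommRing B] [Algebra A B] [Algebra R B] [IsScalarTower R A B],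
    Rep δ E H B → P (aff R B)

variable {δ} {sep : Prop} {P : Sch R → Prop}

lemma ft_away (B : Type) [CommRing B] [Algebra R B] [Algebra.FiniteType R B] (w : B) :
    Algebra.FiniteType R (Localization.Away w) :=
  Algebra.FiniteType.trans (S := B) inferInstance inferInstance

lemma good_of (hP : Clo sep P) {E H : Set ι} {B : Type} [CommRing B] [Algebra A B] [Algebra R B]
    [IsScalarTower R A B] [Algebra.FiniteType R B] (h : Rep δ E H B) (hB : P (aff R B)) :
    Good R δ P E H := by
  intro B' _ _ _ _ h'
  obtain ⟨e⟩ := h.iso h'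
  exact clo_alg hP (e.restrictScalars R) hB

variable [Algebra.FiniteType R A]

/-- the closed-open decomposition -/
lemma good_total (hP : Clo sep P) {E : Set ι} {H : Finset ι} (e : ι) (h1 : Good R δ P (insert e E) ↑H)
    (h2 : Good R δ P E (↑H ∪ ↑({e} : Finset ι))) : Good R δ P E ↑H := by
  have hf : Algebra.FiniteType R (Loc δ E H) := ft_away _ _
  have h := rep_loc δ E H
  refine good_of hP h (hP.total _ _ (ft_aff sep) (triple_away (algebraMap A (Loc δ E H) (δ e))) ?_ ?_)
  · exact h1 _ (h.quot e)
  · exact h2 _ (h.loc {e} (by rw [Finset.prod_singleton]))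

lemma good_closed (hP : Clo sep P) (hc : ∀ {Z X U : Sch R} (i : Z ⟶ X) (j : U ⟶ X), FT sep X →
      IsTriple i j → P X → P U → P Z) {E : Set ι} {H : Finset ι} (e : ι) (h1 : Good R δ P E ↑H)
    (h2 : Good R δ P E (↑H ∪ ↑({e} : Finset ι))) : Good R δ P (insert e E) ↑H := by
  have hf : Algebra.FiniteType R (Loc δ E H) := ft_away _ _
  have h := rep_loc δ E H
  refine good_of hP (h.quot e) (hc _ _ (ft_aff sep)
    (triple_away (algebraMap A (Loc δ E H) (δ e))) ?_ ?_)
  · exact h1 _ h
  · exact h2 _ (h.loc {e} (by rw [Finset.prod_singleton]))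

/-- from the open subschemes to the closed subschemes -/
theorem good_of_open (hP : Clo sep P) (hc : ∀ {Z X U : Sch R} (i : Z ⟶ X) (j : U ⟶ X), FT sep X →
      IsTriple i j → P X → P U → P Z)
    (ho : ∀ H : Finset ι, P (aff R (Localization.Away (∏ h ∈ H, δ h)))) (E : Finset ι) :
    ∀ H : Finset ι, Good R δ P ↑E ↑H := by
  classical
  induction E using Finset.induction_on with
  | empty =>
    intro H
    have hf : Algebra.FiniteType R (Localization.Away (∏ h ∈ H, δ h)) := ft_away _ _
    rw [Finset.coe_empty]
    exact good_of hP (rep_open δ H) (ho H)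
  | insert e E he ih =>
    intro H
    rw [Finset.coe_insert]
    refine good_closed hP hc e (ih H) ?_
    rw [← Finset.coe_union]
    exact ih _

/-- from the strata to the closed subschemes -/
theorem good_of_strata [Fintype ι] (hP : Clo sep P)
    (ho : ∀ H : Finset ι, P (aff R (Loc δ (↑H)ᶜ H))) (n : ℕ) :
    ∀ E H : Finset ι, Disjoint E H → Fintype.card ι = E.card + H.card + n → Good R δ P ↑E ↑H := by
  classical
  induction n with
  | zero =>
    intro E H hd hn
    have h1 : (↑E : Set ι) = (↑H)ᶜ := by
      have h2 : E ∪ H = Finset.univ := by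
        rw [← Finset.card_eq_iff_eq_univ, Finset.card_union_of_disjoint hd, hn]
        rfl
      have h3 : E = Hᶜ := by
        ext x
        rw [Finset.mem_compl]
        constructor
        · intro hx hx'
          exact Finset.disjoint_left.1 hd hx hx'
        · intro hx
          have h4 : x ∈ E ∪ H := by
            rw [h2]
            exact Finset.mem_univ _
          exact (Finset.mem_union.1 h4).resolve_right hx
      rw [h3, Finset.coe_compl]
    have hf : Algebra.FiniteType R (Loc δ (↑E) H) := ft_away _ _
    refine good_of hP (rep_loc δ (↑E) H) ?_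
    rw [h1]
    exact ho H
  | succ n ih =>
    intro E H hd hn
    obtain ⟨e, he⟩ : ∃ e, e ∉ E ∪ H := by
      by_contra hc
      push Not at hc
      have h2 : E ∪ H = Finset.univ := Finset.eq_univ_iff_forall.2 hc
      have h3 := Finset.card_union_of_disjoint hd
      rw [h2, Finset.card_univ] at h3
      omega
    rw [Finset.mem_union, not_or] at he
    refine good_total hP e ?_ ?_
    · rw [← Finset.coe_insert]
      refine ih _ _ (Finset.disjoint_insert_left.2 ⟨he.2, hd⟩) ?_
      rw [Finset.card_insert_of_notMem he.1]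
      omega
    · rw [← Finset.coe_union]
      refine ih _ _ ?_ ?_
      · rw [Finset.disjoint_union_right]
        exact ⟨hd, Finset.disjoint_singleton_right.2 he.1⟩
      · rw [Finset.card_union_of_disjoint (Finset.disjoint_singleton_right.2 he.2),
          Finset.card_singleton]
        omega

end clo

end Pool.Agent.W5h77.MR
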